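import Pool.Agent.Helper10.RS.Goals

/-!
Proof of FROB2 (project RS): the number of `p`-regular elements of a finite group is prime to `p`.
-/

open Finset

namespace Pool.Agent.Helper59.RS

open Pool.Agent.Helper10.RS

universe u

section

variable {G : Type u} [Group G]

lemma orderOf_cj (a x : G) : orderOf (a * x * a⁻¹) = orderOf x := by
  have := (MulAut.conj a).orderOf_eq x
  simpa [MulAut.conj_apply] using this

/-- Conjugation action of a subgroup on the set of `p`-regular elements. -/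
@[reducible] def act (p : ℕ) (P : Subgroup G) : MulAction P {g : G // ¬ p ∣ orderOf g} where
  smul a x := ⟨(a : G) * x.1 * (a : G)⁻¹, by rw [orderOf_cj]; exact x.2⟩
  one_smul x := by
    apply Subtype.ext
    show ((1 : P) : G) * x.1 * ((1 : P) : G)⁻¹ = x.1
    simp
  mul_smul a b x := by
    apply Subtype.ext
    show ((a * b : P) : G) * x.1 * ((a * b : P) : G)⁻¹
      = (a : G) * ((b : G) * x.1 * (b : G)⁻¹) * (a : G)⁻¹
    simp [mul_assoc]

/-- If `Z` is a central `p`-subgroup of index prime to `p`, the number of `p`-regular elements is the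
index of `Z`. -/
lemma reg_central [Finite G] (p : ℕ) (hp : p.Prime) (Z : Subgroup G) (hZ : IsPGroup p Z)
    (hcen : ∀ z ∈ Z, ∀ g : G, g * z = z * g) (hidx : ¬ p ∣ Z.index) :
    reg G p = Z.index := by
  classical
  have : Fact p.Prime := ⟨hp⟩
  have hn : Z.Normal := ⟨fun z hz g => by rw [hcen z hz g, mul_assoc, mul_inv_cancel, mul_one]; exact hz⟩
  unfold reg
  rw [Subgroup.index]
  refine Nat.card_eq_of_bijective (fun x : {g : G // ¬ p ∣ orderOf g} => (x.1 : G ⧸ Z)) ⟨?_, ?_⟩
  · rintro ⟨x, hx⟩ ⟨y, hy⟩ hxy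
    have hz : x⁻¹ * y ∈ Z := QuotientGroup.eq.mp hxy
    set z := x⁻¹ * y with hzd
    have hyz : y = x * z := by rw [hzd]; group
    apply Subtype.ext
    show x = y
    have hcomm : Commute x z := hcen z hz x
    set m := orderOf x * orderOf y with hm
    have hm0 : z ^ m = 1 := by
      have h1 : y ^ m = 1 := by
        rw [hm, mul_comm, pow_mul, pow_orderOf_eq_one, one_pow]
      have h2 : x ^ m = 1 := by rw [hm, pow_mul, pow_orderOf_eq_one, one_pow]
      rw [hyz, hcomm.mul_pow, h2, one_mul] at h1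
      exact h1
    obtain ⟨k, hk⟩ := hZ ⟨z, hz⟩
    have hk' : z ^ p ^ k = 1 := by
      have := congrArg Subtype.val hk
      simpa using this
    have hcop : Nat.Coprime (p ^ k) m := by
      apply Nat.Coprime.pow_left
      rw [hm]
      exact Nat.Coprime.mul_right ((Nat.Prime.coprime_iff_not_dvd hp).mpr hx)
        ((Nat.Prime.coprime_iff_not_dvd hp).mpr hy)
    have hz1 : orderOf z ∣ 1 := by
      rw [← Nat.Coprime.gcd_eq_one hcop]
      exact Nat.dvd_gcd (orderOf_dvd_of_pow_eq_one hk') (orderOf_dvd_of_pow_eq_one hm0)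
    have hz2 : z = 1 := orderOf_eq_one_iff.mp (Nat.dvd_one.mp hz1)
    rw [hyz, hz2, mul_one]
  · intro q
    obtain ⟨c, rfl⟩ := QuotientGroup.mk_surjective q
    set m := Z.index with hm
    obtain ⟨a, ha⟩ := IsPGroup.iff_card.mp hZ
    have hcard : Nat.card G = p ^ a * m := by
      rw [← ha, hm, mul_comm, Subgroup.index_mul_card]
    have hcop : Nat.Coprime m (p ^ a) :=
      (Nat.Coprime.pow_left a ((Nat.Prime.coprime_iff_not_dvd hp).mpr hidx)).symm
    obtain ⟨e, he1, he2⟩ := Nat.chineseRemainder hcop 1 0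
    have hpa : p ^ a ∣ e := (Nat.modEq_zero_iff_dvd).mp he2
    have hem : (c ^ e) ^ m = 1 := by
      obtain ⟨f, hf⟩ := hpa
      rw [← pow_mul, hf, mul_right_comm, ← hcard, pow_mul, pow_card_eq_one', one_pow]
    refine ⟨⟨c ^ e, ?_⟩, ?_⟩
    · intro hd
      exact hidx (hd.trans (orderOf_dvd_of_pow_eq_one hem))
    · show ((c ^ e : G) : G ⧸ Z) = (c : G ⧸ Z)
      have hcm : ((c : G ⧸ Z)) ^ m = 1 := by
        rw [hm, Subgroup.index]
        exact pow_card_eq_one'
      have h3 : ((c : G ⧸ Z)) ^ e = ((c : G ⧸ Z)) ^ 1 := by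
        rw [pow_eq_pow_iff_modEq]
        exact he1.of_dvd (orderOf_dvd_of_pow_eq_one hcm)
      rw [QuotientGroup.mk_pow, h3, pow_one]

end

/-- **FROB2.** -/
theorem p_frob2 : FROB2.{u} := by
  intro G _ _ p hp
  classical
  have : Fact p.Prime := ⟨hp⟩
  obtain ⟨P⟩ : Nonempty (Sylow p G) := inferInstance
  set C : Subgroup G := Subgroup.centralizer ((P : Subgroup G) : Set G) with hC
  set Z : Subgroup C := (P : Subgroup G).subgroupOf C with hZ
  have hZp : IsPGroup p Z := by
    have h1 : IsPGroup p (P : Subgroup G) := P.isPGroup'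
    exact h1.comap_of_injective C.subtype C.subtype_injective
  have hmax : ∀ {Q : Subgroup C}, IsPGroup p Q → Z ≤ Q → Q = Z := by
    intro Q hQ hZQ
    apply le_antisymm _ hZQ
    have hQ' : IsPGroup p (Q.map C.subtype) := hQ.map C.subtype
    have hnorm : Q.map C.subtype ≤ Subgroup.normalizer ((P : Subgroup G) : Set G) := by
      refine le_trans (Subgroup.map_subtype_le Q) ?_
      exact Subgroup.centralizer_le_normalizer _
    have hsup := IsPGroup.to_sup_of_normal_right' hQ' P.isPGroup' hnorm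
    have heq : Q.map C.subtype ⊔ (P : Subgroup G) = P := P.is_maximal' hsup le_sup_right
    have hle : Q.map C.subtype ≤ (P : Subgroup G) := by
      rw [← heq]; exact le_sup_left
    rw [hZ]
    intro x hx
    rw [Subgroup.mem_subgroupOf]
    exact hle (Subgroup.mem_map_of_mem C.subtype hx)
  let S : Sylow p C := ⟨Z, hZp, hmax⟩
  have hcen : ∀ z ∈ Z, ∀ g : C, g * z = z * g := by
    intro z hz g
    have h1 : (z : G) ∈ (P : Subgroup G) := Subgroup.mem_subgroupOf.mp hz
    have h2 := Subgroup.mem_centralizer_iff.mp g.2 (z : G) h1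
    apply Subtype.ext
    exact h2.symm
  have hn : Z.Normal :=
    ⟨fun z hz g => by rw [hcen z hz g, mul_assoc, mul_inv_cancel, mul_one]; exact hz⟩
  have hidx : ¬ p ∣ Z.index := by
    have : (S : Subgroup C).Normal := hn
    exact S.not_dvd_index
  have hregC : reg C p = Z.index := reg_central p hp Z hZp hcen hidx
  let _ := act p (P : Subgroup G)
  have hmod := IsPGroup.card_modEq_card_fixedPoints (P.isPGroup') {g : G // ¬ p ∣ orderOf g}
  have hfix : Nat.card (MulAction.fixedPoints (P : Subgroup G) {g : G // ¬ p ∣ orderOf g})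
      = reg C p := by
    unfold reg
    refine Nat.card_eq_of_bijective (fun x => ⟨⟨x.1.1, ?_⟩, ?_⟩) ⟨?_, ?_⟩
    · rw [hC, Subgroup.mem_centralizer_iff]
      intro g hg
      have := x.2 ⟨g, hg⟩
      have h2 : g * x.1.1 * g⁻¹ = x.1.1 := congrArg Subtype.val this
      exact mul_inv_eq_iff_eq_mul.mp h2
    · rw [Subgroup.orderOf_mk]
      exact x.1.2
    · rintro ⟨⟨x, hx⟩, hx'⟩ ⟨⟨y, hy⟩, hy'⟩ hxy
      simpa using hxy
    · rintro ⟨⟨c, hc⟩, hc'⟩
      rw [Subgroup.orderOf_mk] at hc'
      refine ⟨⟨⟨c, hc'⟩, ?_⟩, rfl⟩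
      rintro ⟨g, hg⟩
      apply Subtype.ext
      show g * c * g⁻¹ = c
      rw [hC, Subgroup.mem_centralizer_iff] at hc
      rw [hc g hg, mul_inv_cancel_right]
  intro hdvd
  apply hidx
  rw [← hregC, ← hfix]
  have h0 : Nat.card {g : G // ¬ p ∣ orderOf g} ≡ 0 [MOD p] := (Nat.modEq_zero_iff_dvd).mpr hdvd
  exact (Nat.modEq_zero_iff_dvd).mp (hmod.symm.trans h0)

end Pool.Agent.Helper59.RS
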