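import Pool.Agent.Helper38.RS.Goals3

/-!
# Project RS (MP_fc6b1e_nt), packet PSM: the sum over all the primes
-/

namespace Pool.Agent.Helper59.RS

open Pool.Agent.Helper38.RS NumberField Polynomial Module IsDedekindDomain

theorem s_psm (h1 : S_EUL) (h2 : S_ZET) : Pool.Agent.Helper38.RS.S_PSM := by
  intro F _ _
  obtain ⟨C1, hC1⟩ := h1 F
  obtain ⟨C2, hC2⟩ := h2 F
  refine ⟨C1 + C2, fun s hs hs2 ↦ ?_⟩
  obtain ⟨-, -, hE⟩ := hC1 (fun _ ↦ 1) rfl (fun _ _ ↦ by norm_num) (fun _ ↦ by norm_num) s hs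
  obtain ⟨hZ, -, -⟩ := hC2 s hs hs2
  have hpz : pz (F := F) Set.univ s = ∑' v : HeightOneSpectrum (𝓞 F),
      (1 : ℝ) * (Ideal.absNorm v.asIdeal : ℝ) ^ (-s) := by
    unfold pz
    rw [tsum_univ (fun v : HeightOneSpectrum (𝓞 F) ↦ (Ideal.absNorm v.asIdeal : ℝ) ^ (-s))]
    exact tsum_congr fun v ↦ (one_mul _).symm
  rw [hpz]
  rw [abs_le] at hE hZ ⊢
  constructor <;> linarith [hE.1, hE.2, hZ.1, hZ.2]

end Pool.Agent.Helper59.RS
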